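import Mathlib

/-!
# A real polynomial is large outside few annuli (for helper14, MP_a57f33_nt)
-/

set_option autoImplicit false

namespace Pool.Agent.L5helper14.AW

/-- the weighted coefficient sum -/
noncomputable def NN (n : ℕ) (p : Polynomial ℂ) (x : ℝ) : ℝ := ∑ j ∈ Finset.range n, ‖p.coeff j‖ * x ^ j

lemma NN_mul_le (n : ℕ) (p : Polynomial ℂ) (ρ : ℂ) (x : ℝ) (hx : 0 < x) :
    NN n ((Polynomial.X - Polynomial.C ρ) * p) x ≤ (x + ‖ρ‖) * NN n p x := by
  have h1 : ∀ j ∈ Finset.range n, ‖((Polynomial.X - Polynomial.C ρ) * p).coeff j‖ * x ^ j ≤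
      ‖(Polynomial.X * p).coeff j‖ * x ^ j + ‖ρ‖ * (‖p.coeff j‖ * x ^ j) := by
    intro j _
    rw [sub_mul, Polynomial.coeff_sub, Polynomial.coeff_C_mul]
    have h2 := norm_sub_le ((Polynomial.X * p).coeff j) (ρ * p.coeff j)
    rw [norm_mul] at h2
    have h3 := mul_le_mul_of_nonneg_right h2 (pow_pos hx j).le
    linarith
  have h2 := Finset.sum_le_sum h1
  rw [Finset.sum_add_distrib, ← Finset.mul_sum] at h2
  have h3 : ∑ j ∈ Finset.range n, ‖(Polynomial.X * p).coeff j‖ * x ^ j ≤ x * NN n p x := by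
    cases n with
    | zero => simp [NN]
    | succ n =>
      rw [Finset.sum_range_succ']
      simp only [Polynomial.coeff_X_mul, Polynomial.coeff_X_mul_zero, norm_zero, zero_mul, add_zero]
      rw [NN, Finset.sum_range_succ, mul_add, Finset.mul_sum]
      have h4 : 0 ≤ x * (‖p.coeff n‖ * x ^ n) := by positivity
      have h5 : ∑ j ∈ Finset.range n, ‖p.coeff j‖ * x ^ (j + 1) = ∑ j ∈ Finset.range n, x * (‖p.coeff j‖ * x ^ j) :=
        Finset.sum_congr rfl fun j _ => by ring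
      rw [h5]
      linarith
  rw [add_mul]
  exact h2.trans (add_le_add h3 le_rfl)

lemma NN_prod_le (n : ℕ) (S : Multiset ℂ) (x : ℝ) (hx : 0 < x) :
    NN n (S.map fun ρ => Polynomial.X - Polynomial.C ρ).prod x ≤ (S.map fun ρ => x + ‖ρ‖).prod := by
  induction S using Multiset.induction_on with
  | empty =>
    simp only [Multiset.map_zero, Multiset.prod_zero]
    rw [NN]
    cases n with
    | zero => simp
    | succ n =>
      rw [Finset.sum_range_succ']
      simp [Polynomial.coeff_one]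
  | cons ρ S ih =>
    rw [Multiset.map_cons, Multiset.prod_cons, Multiset.map_cons, Multiset.prod_cons]
    refine (NN_mul_le n _ ρ x hx).trans ?_
    exact mul_le_mul_of_nonneg_left ih (by positivity)

lemma coeff_prod_le (S : Multiset ℂ) (x : ℝ) (hx : 0 < x) (j : ℕ) :
    ‖(S.map fun ρ => Polynomial.X - Polynomial.C ρ).prod.coeff j‖ * x ^ j ≤ (S.map fun ρ => x + ‖ρ‖).prod := by
  refine le_trans ?_ (NN_prod_le (j + 1) S x hx)
  rw [NN]
  exact Finset.single_le_sum (f := fun j => ‖(S.map fun ρ => Polynomial.X - Polynomial.C ρ).prod.coeff j‖ * x ^ j)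
    (fun i _ => by positivity) (Finset.mem_range.2 (Nat.lt_succ_self j))

lemma prod_far (S : Multiset ℂ) (x δ : ℝ) (hx : 0 < x) (h0 : 0 < δ) (h : ∀ ρ ∈ S, δ / 3 * (x + ‖ρ‖) ≤ ‖(x : ℂ) - ρ‖) :
    (δ / 3) ^ S.card * (S.map fun ρ => x + ‖ρ‖).prod ≤ ‖(S.map fun ρ => (x : ℂ) - ρ).prod‖ := by
  induction S using Multiset.induction_on with
  | empty => simp
  | cons ρ S ih =>
    rw [Multiset.map_cons, Multiset.prod_cons, Multiset.map_cons, Multiset.prod_cons, Multiset.card_cons, norm_mul, pow_succ]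
    have h1 := ih fun ρ' hρ' => h ρ' (Multiset.mem_cons_of_mem hρ')
    have h2 := h ρ (Multiset.mem_cons_self ρ S)
    have h3 : 0 ≤ (δ / 3) ^ S.card * (S.map fun ρ => x + ‖ρ‖).prod := by
      refine mul_nonneg (by positivity) (Multiset.prod_nonneg fun a ha => ?_)
      obtain ⟨ρ', _, rfl⟩ := Multiset.mem_map.1 ha
      positivity
    calc (δ / 3) ^ S.card * (δ / 3) * ((x + ‖ρ‖) * (S.map fun ρ => x + ‖ρ‖).prod)
        = (δ / 3 * (x + ‖ρ‖)) * ((δ / 3) ^ S.card * (S.map fun ρ => x + ‖ρ‖).prod) := by ring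
      _ ≤ ‖(x : ℂ) - ρ‖ * ‖(S.map fun ρ => (x : ℂ) - ρ).prod‖ := mul_le_mul h2 h1 h3 (norm_nonneg _)

lemma far_of {x δ R : ℝ} (hx : 0 < x) (hR : 0 < R) (h0 : 0 < δ) (h1 : δ ≤ 1 / 3)
    (h : ¬ ((1 - δ) * R ≤ x ∧ x ≤ (1 + 3 * δ) * ((1 - δ) * R))) : δ / 3 * (x + R) ≤ |x - R| := by
  rw [not_and_or, not_le, not_le] at h
  rcases h with h | h
  · rw [abs_sub_comm]
    refine le_trans ?_ (le_abs_self _)
    have e : (R - x) - δ / 3 * (x + R) = (1 + δ / 3) * ((1 - δ) * R - x) + δ * R * (1 + δ) / 3 := by ring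
    have e1 : 0 ≤ (1 + δ / 3) * ((1 - δ) * R - x) := mul_nonneg (by positivity) (by linarith)
    have e2 : 0 ≤ δ * R * (1 + δ) / 3 := by positivity
    linarith
  · refine le_trans ?_ (le_abs_self _)
    have h2 : (1 + δ) * R < x := by
      refine lt_of_le_of_lt ?_ h
      have : (1 + 3 * δ) * ((1 - δ) * R) - (1 + δ) * R = δ * (1 - 3 * δ) * R := by ring
      have h3 : 0 ≤ δ * (1 - 3 * δ) * R := by
        apply mul_nonneg _ hR.le
        apply mul_nonneg h0.le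
        linarith
      linarith
    have e : (x - R) - δ / 3 * (x + R) = (1 - δ / 3) * (x - (1 + δ) * R) + δ * R * (1 - δ) / 3 := by ring
    have e1 : 0 ≤ (1 - δ / 3) * (x - (1 + δ) * R) := mul_nonneg (by linarith) (by linarith)
    have e2 : 0 ≤ δ * R * (1 - δ) / 3 := by
      apply div_nonneg (mul_nonneg (by positivity) (by linarith)) (by norm_num)
    linarith

theorem poly_annuli (D : ℕ) (q : Polynomial ℝ) (hq : q ≠ 0) (hD : q.natDegree ≤ D) (δ : ℝ) (h0 : 0 < δ) (h1 : δ ≤ 1 / 3) :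
    ∃ ys : Finset ℝ, ys.card ≤ D ∧ (∀ y ∈ ys, 0 < y) ∧ ∀ x : ℝ, 0 < x → (∀ y ∈ ys, ¬ (y ≤ x ∧ x ≤ (1 + 3 * δ) * y)) →
      ∀ j, (δ / 3) ^ D * (|q.coeff j| * x ^ j) ≤ |q.eval x| := by
  classical
  set p : Polynomial ℂ := q.map (algebraMap ℝ ℂ) with hp
  have hsplit : p.Splits := IsAlgClosed.splits p
  have hcard : p.roots.card ≤ D := by
    refine (Polynomial.card_roots' p).trans ?_
    rw [hp]
    exact (Polynomial.natDegree_map_le).trans hD
  refine ⟨(p.roots.toFinset.filter (· ≠ 0)).image (fun ρ => (1 - δ) * ‖ρ‖), ?_, ?_, ?_⟩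
  · refine (Finset.card_image_le).trans ((Finset.card_filter_le _ _).trans ?_)
    exact (Multiset.toFinset_card_le _).trans hcard
  · intro y hy
    obtain ⟨ρ, hρ, rfl⟩ := Finset.mem_image.1 hy
    have := norm_pos_iff.2 (Finset.mem_filter.1 hρ).2
    have : 0 < 1 - δ := by linarith
    positivity
  · intro x hx hxy j
    have hfar : ∀ ρ ∈ p.roots, δ / 3 * (x + ‖ρ‖) ≤ ‖(x : ℂ) - ρ‖ := by
      intro ρ hρ
      by_cases hρ0 : ρ = 0
      · rw [hρ0, norm_zero, add_zero, sub_zero, Complex.norm_real, Real.norm_eq_abs, abs_of_pos hx]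
        nlinarith
      · have h2 := hxy ((1 - δ) * ‖ρ‖) (Finset.mem_image.2 ⟨ρ, Finset.mem_filter.2 ⟨Multiset.mem_toFinset.2 hρ, hρ0⟩, rfl⟩)
        have h3 := far_of hx (norm_pos_iff.2 hρ0) h0 h1 h2
        refine h3.trans ?_
        have h4 := abs_norm_sub_norm_le (x : ℂ) ρ
        rwa [Complex.norm_real, Real.norm_eq_abs, abs_of_pos hx] at h4
    have h2 := prod_far p.roots x δ hx h0 hfar
    have h3 := coeff_prod_le p.roots x hx j
    have h4 : |q.eval x| = ‖p.leadingCoeff‖ * ‖(p.roots.map fun ρ => (x : ℂ) - ρ).prod‖ := by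
      rw [← norm_mul, ← hsplit.eval_eq_prod_roots, hp]
      rw [← Polynomial.eval₂_eq_eval_map]
      rw [show (x : ℂ) = algebraMap ℝ ℂ x from rfl, Polynomial.eval₂_at_apply]
      simp
    have h5 : |q.coeff j| = ‖p.leadingCoeff‖ * ‖(p.roots.map fun ρ => Polynomial.X - Polynomial.C ρ).prod.coeff j‖ := by
      rw [← norm_mul, ← Polynomial.coeff_C_mul, ← hsplit.eq_prod_roots, hp, Polynomial.coeff_map]
      simp
    rw [h4, h5]
    have h6 : (δ / 3) ^ D ≤ (δ / 3) ^ p.roots.card := pow_le_pow_of_le_one (by positivity) (by linarith) hcard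
    have h7 : 0 ≤ (p.roots.map fun ρ => x + ‖ρ‖).prod := by
      refine Multiset.prod_nonneg fun a ha => ?_
      obtain ⟨ρ', _, rfl⟩ := Multiset.mem_map.1 ha
      positivity
    calc (δ / 3) ^ D * (‖p.leadingCoeff‖ * ‖(p.roots.map fun ρ => Polynomial.X - Polynomial.C ρ).prod.coeff j‖ * x ^ j)
        = ‖p.leadingCoeff‖ * ((δ / 3) ^ D * (‖(p.roots.map fun ρ => Polynomial.X - Polynomial.C ρ).prod.coeff j‖ * x ^ j)) := by
          ring
      _ ≤ ‖p.leadingCoeff‖ * ((δ / 3) ^ D * (p.roots.map fun ρ => x + ‖ρ‖).prod) := by gcongr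
      _ ≤ ‖p.leadingCoeff‖ * ((δ / 3) ^ p.roots.card * (p.roots.map fun ρ => x + ‖ρ‖).prod) := by gcongr
      _ ≤ ‖p.leadingCoeff‖ * ‖(p.roots.map fun ρ => (x : ℂ) - ρ).prod‖ := by gcongr

end Pool.Agent.L5helper14.AW
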